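import Mathlib

/-!
# Squad BE01 (MP_be01ff_an): a final state theorem for the damped wave equation. Definitions.
See /team-store/PAPER_BE01.md
-/

namespace Pool.Agent.BE01

open Set Filter Topology
open scoped InnerProductSpace

noncomputable section

/-! ## Products: the scale `X = L^∞`, `Y = L^4`, `H = L^2` -/

/-- The scale of spaces `X = L^∞`, `Y = L^4`, `H = L^2` with its products. -/
structure Alg (X Y H : Type) [NormedCommRing X] [NormedAlgebra ℝ X] [NormedAddCommGroup Y]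
    [NormedSpace ℝ Y] [NormedAddCommGroup H] [InnerProductSpace ℝ H] where
  i : X →L[ℝ] Y
  j : Y →L[ℝ] H
  mY : X →L[ℝ] Y →L[ℝ] Y
  mH : X →L[ℝ] H →L[ℝ] H
  B : Y →L[ℝ] Y →L[ℝ] H
  i_inj : Function.Injective i
  j_inj : Function.Injective j
  one_mY : ∀ y, mY 1 y = y
  one_mH : ∀ h, mH 1 h = h
  mul_mY : ∀ x x' y, mY (x * x') y = mY x (mY x' y)
  mul_mH : ∀ x x' h, mH (x * x') h = mH x (mH x' h)
  mY_i : ∀ x x', mY x (i x') = i (x * x')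
  j_mY : ∀ x y, j (mY x y) = mH x (j y)
  B_symm : ∀ y y', B y y' = B y' y
  B_i : ∀ x y, B (i x) y = mH x (j y)
  B_mY : ∀ x y y', B (mY x y) y' = mH x (B y y')
  nY : ∀ x y, ‖mY x y‖ ≤ ‖x‖ * ‖y‖
  nH : ∀ x h, ‖mH x h‖ ≤ ‖x‖ * ‖h‖
  nB : ∀ y y', ‖B y y'‖ ≤ ‖y‖ * ‖y'‖

section abs

variable {X Y H : Type} [NormedCommRing X] [NormedAlgebra ℝ X] [NormedAddCommGroup Y]
  [NormedSpace ℝ Y] [NormedAddCommGroup H] [InnerProductSpace ℝ H]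

/-- The inclusion of `L^∞` in `L^2`. -/
def Alg.e (A : Alg X Y H) : X →L[ℝ] H := A.j.comp A.i

/-- The square root `R` of the inverse `S` of the operator `L`, and the operators
`C τ = cos (τ L^(1/2))`, `Sn τ = sin (τ L^(1/2))`. -/
structure Prp (H : Type) [NormedAddCommGroup H] [InnerProductSpace ℝ H] (S R : H →L[ℝ] H)
    (C Sn : ℝ → H →L[ℝ] H) : Prop where
  RR : ∀ h, R (R h) = S h
  R_inj : Function.Injective R
  R_symm : ∀ h k, ⟪R h, k⟫_ℝ = ⟪h, R k⟫_ℝ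
  C_zero : ∀ h, C 0 h = h
  Sn_zero : ∀ h, Sn 0 h = 0
  C_le : ∀ τ h, ‖C τ h‖ ≤ ‖h‖
  Sn_le : ∀ τ h, ‖Sn τ h‖ ≤ ‖h‖
  C_cont : ∀ h, Continuous fun τ => C τ h
  Sn_cont : ∀ h, Continuous fun τ => Sn τ h
  R_C : ∀ τ h, R (C τ h) = C τ (R h)
  R_Sn : ∀ τ h, R (Sn τ h) = Sn τ (R h)
  dS : ∀ h τ, HasDerivAt (fun s => R (Sn s h)) (C τ h) τ
  dC : ∀ h τ, HasDerivAt (fun s => R (C s h)) (-(Sn τ h)) τ

/-- The operators of the wave equation: `S = L^(-1)`, `R = L^(-1/2)`, the lifts of `S` to `L^∞` and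
of `R` to `L^4`, and the operators `C τ`, `Sn τ`. -/
structure Wv (A : Alg X Y H) where
  S : H →L[ℝ] H
  R : H →L[ℝ] H
  C : ℝ → H →L[ℝ] H
  Sn : ℝ → H →L[ℝ] H
  SX : H →L[ℝ] X
  RY : H →L[ℝ] Y
  prp : Prp H S R C Sn
  e_SX : ∀ h, A.e (SX h) = S h
  j_RY : ∀ h, A.j (RY h) = R h

/-! ## Curves and jets -/

/-- `x, y, h` are a function with values in `X` and its first two derivatives, with values in `Y`
and `H`. -/
def Curve (A : Alg X Y H) (t0 : ℝ) (x : ℝ → X) (y : ℝ → Y) (h : ℝ → H) : Prop :=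
  ContinuousOn x (Ioi t0) ∧ ContinuousOn y (Ioi t0) ∧ ContinuousOn h (Ioi t0) ∧
  (∀ t > t0, HasDerivAt (fun s => A.i (x s)) (y t) t) ∧
  ∀ t > t0, HasDerivAt (fun s => A.j (y s)) (h t) t

/-- `f 0, f 1, f 2` are a function and its first two derivatives. -/
def Jet (t0 : ℝ) (f : Fin 3 → ℝ → H) : Prop :=
  (∀ t > t0, HasDerivAt (f 0) (f 1 t) t) ∧ (∀ t > t0, HasDerivAt (f 1) (f 2 t) t) ∧
  ContinuousOn (f 2) (Ioi t0)

/-- The jet is bounded by `N t^(-m)`. -/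
def Bd (t0 m N : ℝ) (f : Fin 3 → ℝ → H) : Prop :=
  ∀ t > t0, ‖f 0 t‖ + ‖f 1 t‖ + ‖f 2 t‖ ≤ N * t ^ (-m)

/-- First derivative of the power `x ^ n`. -/
def pw1 (A : Alg X Y H) (n : ℕ) (x : X) (y : Y) : Y := (n : ℝ) • A.mY (x ^ (n - 1)) y

/-- Second derivative of the power `x ^ n`. -/
def pw2 (A : Alg X Y H) (n : ℕ) (x : X) (y : Y) (h : H) : H :=
  (n : ℝ) • A.mH (x ^ (n - 1)) h + ((n : ℝ) * (n - 1)) • A.mH (x ^ (n - 2)) (A.B y y)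

/-- The size of the derivative of the power map `x ↦ x ^ n` along the curve `w0, w1, w2`. -/
def gsz (n : ℕ) (w0 w1 w2 : X) : ℝ :=
  ‖(n : ℝ) • w0 ^ (n - 1)‖ + 2 * ‖((n : ℝ) * (n - 1)) • (w0 ^ (n - 2) * w1)‖ +
  ‖((n : ℝ) * (n - 1)) • (w0 ^ (n - 2) * w2) +
    ((n : ℝ) * (n - 1) * (n - 2)) • (w0 ^ (n - 3) * w1 ^ 2)‖

/-- The solution of `u'' + L u = - f` that vanishes at infinity. -/
def wu {A : Alg X Y H} (W : Wv A) (f : ℝ → H) (t : ℝ) : H :=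
  - ∫ τ in Ioi (0 : ℝ), W.R (W.Sn τ (f (t + τ)))

/-- Its derivative. -/
def wv {A : Alg X Y H} (W : Wv A) (f : ℝ → H) (t : ℝ) : H :=
  ∫ τ in Ioi (0 : ℝ), W.C τ (f (t + τ))

/-- The integral of `sin (τ L^(1/2)) f (t + τ)`. -/
def ws {A : Alg X Y H} (W : Wv A) (f : ℝ → H) (t : ℝ) : H :=
  ∫ τ in Ioi (0 : ℝ), W.Sn τ (f (t + τ))

end abs

/-! ## Trigonometric polynomials -/

section tri

variable (M : Type) [NormedAddCommGroup M] [NormedSpace ℝ M]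

/-- Trigonometric polynomials of degree at most `n` with coefficients in `M`. -/
def TP (n : ℕ) : Submodule ℝ (ℝ → M) :=
  Submodule.span ℝ {F | ∃ j ≤ n, ∃ m : M, (F = fun ψ => Real.cos (j * ψ) • m) ∨
    F = fun ψ => Real.sin (j * ψ) • m}

/-- Polynomials in `δ` with coefficients trigonometric polynomials in `ψ`: the coefficient of
`δ ^ k` has degree at most `c + α k`. -/
def PP (α c : ℕ) : Submodule ℝ (ℝ → ℝ → M) :=
  Submodule.span ℝ {P | ∃ k j : ℕ, j ≤ c + α * k ∧ ∃ m : M,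
    (P = fun ψ δ => (δ ^ k * Real.cos (j * ψ)) • m) ∨
    P = fun ψ δ => (δ ^ k * Real.sin (j * ψ)) • m}

variable {M}

/-- Odd harmonics only. -/
def Od (P : ℝ → ℝ → M) : Prop := ∀ ψ δ, P (ψ + Real.pi) δ = - P ψ δ

/-- The derivative with respect to `ψ`. -/
def dps (P : ℝ → ℝ → M) (ψ δ : ℝ) : M := deriv (fun s => P s δ) ψ

/-- `δ` times the derivative with respect to `δ`. -/
def ddl (P : ℝ → ℝ → M) (ψ δ : ℝ) : M := δ • deriv (fun s => P ψ s) δ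

/-- The operator `D`: if `δ' = α δ a(δ)`, `ψ' = ω + b(δ)` and `A ^ α = δ` then the derivative of
`A P(ψ, δ)` is `A (D P)(ψ, δ)`. -/
def DD (α : ℕ) (ω : ℝ) (a b : Polynomial ℝ) (P : ℝ → ℝ → M) (ψ δ : ℝ) : M :=
  a.eval δ • (P ψ δ + (α : ℝ) • ddl P ψ δ) + (ω + b.eval δ) • dps P ψ δ

end tri

section apx

variable {X Y H : Type} [NormedCommRing X] [NormedAlgebra ℝ X] [NormedAddCommGroup Y]
  [NormedSpace ℝ Y] [NormedAddCommGroup H] [InnerProductSpace ℝ H]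

/-- The residual of the approximate solution `u = A P(ψ, δ)`, `P = S q`, divided by `A`. -/
def Rsd (A : Alg X Y H) (p : ℕ) (a0 ω : ℝ) (a b : Polynomial ℝ) (P : ℝ → ℝ → X)
    (q : ℝ → ℝ → H) (ψ δ : ℝ) : H :=
  A.e (DD (2 * p) ω a b (DD (2 * p) ω a b P) ψ δ) + q ψ δ +
    (a0 * δ) • A.e ((DD (2 * p) ω a b P ψ δ) ^ (2 * p + 1))

/-- The data of an approximate solution of order `K`. -/
structure Apx {A : Alg X Y H} (W : Wv A) (p : ℕ) (a0 ω : ℝ) (φ : H) (K : ℕ)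
    (a b : Polynomial ℝ) (P : ℝ → ℝ → X) (q Q : ℝ → ℝ → H) : Prop where
  a_zero : a.eval 0 = 0
  b_zero : b.eval 0 = 0
  q_mem : q ∈ PP H (2 * p) 1
  q_odd : Od q
  P_eq : ∀ ψ δ, P ψ δ = W.SX (q ψ δ)
  q_zero : ∀ ψ, q ψ 0 = (ω ^ 2 * Real.cos ψ) • φ
  Q_mem : Q ∈ PP H (2 * p) (1 + 2 * p * (K + 1))
  Q_odd : Od Q
  res : ∀ ψ δ, Rsd A p a0 ω a b P q ψ δ = δ ^ (K + 1) • Q ψ δ

/-- The constant `(1/π) ∫ sin^(2p+2)` over a period. -/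
def cp (p : ℕ) : ℝ := (1 / Real.pi) * ∫ s in (0 : ℝ)..(2 * Real.pi), Real.sin s ^ (2 * p + 2)

/-- The sine coefficient at `φ` of the first harmonic of `F`. -/
def sc (φ : H) (F : ℝ → H) : ℝ :=
  (1 / Real.pi) * (∫ s in (0 : ℝ)..(2 * Real.pi), Real.sin s * ⟪F s, φ⟫_ℝ) / ⟪φ, φ⟫_ℝ

/-- Solvability of the equations `(L - n² ω²) u = F` for odd `3 ≤ n ≤ M`, and for `n = 1` under
the condition that `F` is orthogonal to `φ`. -/
structure Slv (S : H →L[ℝ] H) (ω : ℝ) (φ : H) (M : ℕ) : Prop where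
  one : ∀ F : H, ⟪F, φ⟫_ℝ = 0 → ∃ q : H, q - (ω ^ 2) • S q = F
  odd : ∀ n : ℕ, Odd n → 3 ≤ n → n ≤ M → ∀ F : H, ∃ q : H, q - ((n : ℝ) ^ 2 * ω ^ 2) • S q = F

end apx

end

end Pool.Agent.BE01
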