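import Pool.Agent.BE01.Defs

/-!
# Squad BE01 (MP_be01ff_an): definitions of the concrete part
-/

namespace Pool.Agent.BE01

open Set Filter Topology MeasureTheory
open scoped InnerProductSpace ENNReal

noncomputable section

instance fact4 : Fact ((1 : ℝ≥0∞) ≤ 4) := ⟨by norm_num⟩

instance fact6 : Fact ((1 : ℝ≥0∞) ≤ 6) := ⟨by norm_num⟩

/-- Euclidean space of dimension `d`. -/
abbrev En (d : ℕ) := EuclideanSpace ℝ (Fin d)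

variable {d : ℕ}

/-- Lebesgue measure on `Ω`. -/
def mu (Ω : Set (En d)) : Measure (En d) := volume.restrict Ω

/-- `Ω` is a nonempty bounded open set. -/
def Dom (Ω : Set (En d)) : Prop := IsOpen Ω ∧ Bornology.IsBounded Ω ∧ Ω.Nonempty

/-- Test functions: smooth functions whose support is a compact subset of `Ω`. -/
def Tst (Ω : Set (En d)) (ψ : En d → ℝ) : Prop :=
  ContDiff ℝ ((⊤ : ℕ∞) : WithTop ℕ∞) ψ ∧ HasCompactSupport ψ ∧ tsupport ψ ⊆ Ω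

/-- The Sobolev space `H^1_0(Ω)`, as the set of the pairs `(u, ∇u)`: the closure in
`L^2 × L^2` of the set of the pairs `(ψ, ∇ψ)`, `ψ` a test function. -/
def H10 (Ω : Set (En d)) : Set (Lp ℝ 2 (mu Ω) × Lp (En d) 2 (mu Ω)) :=
  closure {P | ∃ ψ, Tst Ω ψ ∧ P.1 =ᵐ[mu Ω] ψ ∧ P.2 =ᵐ[mu Ω] gradient ψ}

/-- Strong solutions of `u_tt - Δ u + a |u_t|^α u_t = 0`, `u = 0` on the boundary, for `t ≥ 0`:
`v = u_t`, `w = u_tt`, `G = ∇ u`. -/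
structure IsSol (Ω : Set (En d)) (a α : ℝ) (u v w : ℝ → Lp ℝ 2 (mu Ω))
    (G : ℝ → Lp (En d) 2 (mu Ω)) : Prop where
  dom : ∀ t, 0 ≤ t → (u t, G t) ∈ H10 Ω
  vdom : ∀ t, 0 ≤ t → ∃ G', (v t, G') ∈ H10 Ω
  du : ∀ t, 0 ≤ t → HasDerivAt u (v t) t
  dv : ∀ t, 0 ≤ t → HasDerivAt v (w t) t
  G_cont : ContinuousOn G (Ici 0)
  w_cont : ContinuousOn w (Ici 0)
  v_bdd : ∀ t, 0 ≤ t → ∃ C, ∀ᵐ x ∂(mu Ω), |v t x| ≤ C
  eq : ∀ t, 0 ≤ t → ∀ ψ, Tst Ω ψ →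
    ∫ x, w t x * ψ x + ⟪G t x, gradient ψ x⟫_ℝ + a * |v t x| ^ α * v t x * ψ x ∂(mu Ω) = 0

/-- The energy. -/
def energy (Ω : Set (En d)) (v : ℝ → Lp ℝ 2 (mu Ω)) (G : ℝ → Lp (En d) 2 (mu Ω)) (t : ℝ) : ℝ :=
  ∫ x, v t x ^ 2 + ‖G t x‖ ^ 2 ∂(mu Ω)

/-- `u ∈ H^1_0(Ω)` and `- Δ u = l u` in the weak sense. -/
def IsEig (Ω : Set (En d)) (l : ℝ) (u : Lp ℝ 2 (mu Ω)) : Prop :=
  ∃ G : Lp (En d) 2 (mu Ω), (u, G) ∈ H10 Ω ∧ ∀ ψ, Tst Ω ψ →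
    ∫ x, ⟪G x, gradient ψ x⟫_ℝ ∂(mu Ω) = l * ∫ x, u x * ψ x ∂(mu Ω)

/-- The closure of the gradients of the test functions. -/
def VV (Ω : Set (En d)) : Submodule ℝ (Lp (En d) 2 (mu Ω)) :=
  (Submodule.span ℝ {G : Lp (En d) 2 (mu Ω) | ∃ ψ, Tst Ω ψ ∧ G =ᵐ[mu Ω] gradient ψ}).topologicalClosure

/-- The map `ι` from the space of gradients to `L^6` is the inverse of the gradient. -/
def Emb (Ω : Set (En d)) (ι : VV Ω →L[ℝ] Lp ℝ 6 (mu Ω)) : Prop :=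
  ∀ ψ, Tst Ω ψ → ∀ G : VV Ω, (G : Lp (En d) 2 (mu Ω)) =ᵐ[mu Ω] gradient ψ → ι G =ᵐ[mu Ω] ψ

end

end Pool.Agent.BE01
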