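import Pool.Agent.BE01.DefsC

/-!
# Squad BE01 (MP_be01ff_an), second theorem: all spherical shells in dimension `d ≠ 3`. Definitions.
See /team-store/PAPER_BE01S.md
-/

namespace Pool.Agent.BE01

open Set Filter Topology MeasureTheory
open scoped InnerProductSpace ENNReal

noncomputable section

/-- The spherical shell. -/
def shell (d : ℕ) (r0 r1 : ℝ) : Set (En d) := {x | r0 < ‖x‖ ∧ ‖x‖ < r1}

/-- The closed interval as a type. -/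
abbrev Ic (r0 r1 : ℝ) := ↥(Icc r0 r1)

/-- The radial coordinate. -/
def pr {d : ℕ} {r0 r1 : ℝ} (h : r0 ≤ r1) (x : En d) : Ic r0 r1 := projIcc r0 r1 h ‖x‖

/-- The law of the radial coordinate under the Lebesgue measure of the shell. -/
def nu (d : ℕ) {r0 r1 : ℝ} (h : r0 ≤ r1) : Measure (Ic r0 r1) := (mu (shell d r0 r1)).map (pr h)

/-- The area of the unit sphere. -/
def sg (d : ℕ) : ℝ := d * (volume : Measure (En d)).real (Metric.ball 0 1)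

/-- The coefficient `1 / (sg r^(d-1))`. -/
def qq (d : ℕ) (s : ℝ) : ℝ := 1 / (sg d * s ^ (d - 1))

section

variable {d : ℕ} {r0 r1 : ℝ} {h : r0 ≤ r1}

/-- The integral of `k` over `[r0, r]`. -/
def KK (k : Lp ℝ 2 (nu d h)) (r : ℝ) : ℝ := ∫ s in {s : Ic r0 r1 | (s : ℝ) ≤ r}, k s ∂(nu d h)

/-- The flux at `r0`. -/
def kc (k : Lp ℝ 2 (nu d h)) : ℝ :=
  (∫ s in r0..r1, qq d s * KK k s) / ∫ s in r0..r1, qq d s

/-- The flux `sg r^(d-1) u'` of the solution of `- u'' - (d-1)/r u' = k`, `u = 0` at the ends. -/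
def flx (k : Lp ℝ 2 (nu d h)) (r : ℝ) : ℝ := kc k - KK k r

/-- The operators `D k = u'`, `SX k = u`, `u` the solution of `- u'' - (d-1)/r u' = k`. -/
structure Opr (D SX : Lp ℝ 2 (nu d h) →L[ℝ] C(Ic r0 r1, ℝ)) : Prop where
  D_eq : ∀ (k : Lp ℝ 2 (nu d h)) (r : Ic r0 r1), D k r = qq d r * flx k r
  SX_eq : ∀ (k : Lp ℝ 2 (nu d h)) (r : Ic r0 r1), SX k r = ∫ s in r0..(r : ℝ), qq d s * flx k s
  zero : ∀ k : Lp ℝ 2 (nu d h), ∫ s in r0..r1, qq d s * flx k s = 0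
  flx_cont : ∀ k : Lp ℝ 2 (nu d h), ContinuousOn (flx k) (Icc r0 r1)
  weak : ∀ (k : Lp ℝ 2 (nu d h)) (η η' : ℝ → ℝ), (∀ s, HasDerivAt η (η' s) s) → Continuous η' → η r0 = 0 →
    η r1 = 0 → ∫ s in r0..r1, flx k s * η' s = ∫ s, k s * η s ∂(nu d h)
  symm : ∀ k k' : Lp ℝ 2 (nu d h), ∫ s, SX k s * k' s ∂(nu d h) =
    ∫ s in r0..r1, qq d s * flx k s * flx k' s

end

/-- `w' ' = (c / r² - l) w` on `[r0, r1]`, `w r0 = 0`. -/
structure SLe (c l r0 r1 : ℝ) (w w' : ℝ → ℝ) : Prop where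
  cw : ContinuousOn w (Icc r0 r1)
  cw' : ContinuousOn w' (Icc r0 r1)
  dw : ∀ r ∈ Ioo r0 r1, HasDerivAt w (w' r) r
  dw' : ∀ r ∈ Ioo r0 r1, HasDerivAt w' ((c / r ^ 2 - l) * w r) r
  left : w r0 = 0

/-- The phase and the amplitude of Prüfer. -/
structure Pru (c ω r0 r1 : ℝ) (θ ρ : ℝ → ℝ) : Prop where
  cθ : ContinuousOn θ (Icc r0 r1)
  cρ : ContinuousOn ρ (Icc r0 r1)
  dθ : ∀ r ∈ Ioo r0 r1, HasDerivAt θ (ω - c / (ω * r ^ 2) * Real.sin (θ r) ^ 2) r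
  dρ : ∀ r ∈ Ioo r0 r1, HasDerivAt ρ (ρ r * (c / (2 * ω * r ^ 2) * Real.sin (2 * θ r))) r
  θ0 : θ r0 = 0
  ρ0 : ρ r0 = 1
  pos : ∀ r ∈ Icc r0 r1, 0 < ρ r

end

end Pool.Agent.BE01
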