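import Pool.Agent.BE01.Defs

/-!
# Squad BE01 (MP_be01ff_an): statements of the abstract modules. See /team-store/PAPER_BE01.md
-/

namespace Pool.Agent.BE01

open Set Filter Topology
open scoped InnerProductSpace

noncomputable section

/-! ## Part L: the linear wave equation with a source -/

/-- LIA: convergence and continuity of the integrals. -/
def LiaStmt : Prop := ∀ (H : Type) [NormedAddCommGroup H] [InnerProductSpace ℝ H]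
  [CompleteSpace H] (T : ℝ → H →L[ℝ] H) (f : ℝ → H) (t0 m N : ℝ), 0 < t0 → 1 < m →
  (∀ τ h, ‖T τ h‖ ≤ ‖h‖) → (∀ h, Continuous fun τ => T τ h) → ContinuousOn f (Ioi t0) →
  (∀ t > t0, ‖f t‖ ≤ N * t ^ (-m)) →
  (∀ t > t0, MeasureTheory.IntegrableOn (fun τ => T τ (f (t + τ))) (Ioi 0)) ∧
  ContinuousOn (fun t => ∫ τ in Ioi (0 : ℝ), T τ (f (t + τ))) (Ioi t0) ∧
  ∀ t > t0, ‖∫ τ in Ioi (0 : ℝ), T τ (f (t + τ))‖ ≤ N / (m - 1) * t ^ (1 - m)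

/-- LIB: derivatives. -/
def LibStmt : Prop := ∀ (H : Type) [NormedAddCommGroup H] [InnerProductSpace ℝ H]
  [CompleteSpace H] (T : ℝ → H →L[ℝ] H) (f f' : ℝ → H) (t0 m N : ℝ), 0 < t0 → 1 < m →
  (∀ τ h, ‖T τ h‖ ≤ ‖h‖) → (∀ h, Continuous fun τ => T τ h) → ContinuousOn f' (Ioi t0) →
  (∀ t > t0, HasDerivAt f (f' t) t) →
  (∀ t > t0, ‖f t‖ ≤ N * t ^ (-m)) → (∀ t > t0, ‖f' t‖ ≤ N * t ^ (-m)) →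
  ∀ t > t0, HasDerivAt (fun t => ∫ τ in Ioi (0 : ℝ), T τ (f (t + τ)))
    (∫ τ in Ioi (0 : ℝ), T τ (f' (t + τ))) t

/-- LIC: the formulas for the solution `u = wu f` of `u'' + L u = - f`. -/
def LicStmt : Prop := ∀ (X Y H : Type) [NormedCommRing X] [NormedAlgebra ℝ X]
  [NormedAddCommGroup Y] [NormedSpace ℝ Y] [NormedAddCommGroup H] [InnerProductSpace ℝ H]
  [CompleteSpace H] (A : Alg X Y H) (W : Wv A) (f f' : ℝ → H) (t0 m N : ℝ), 0 < t0 → 1 < m →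
  ContinuousOn f' (Ioi t0) → (∀ t > t0, HasDerivAt f (f' t) t) →
  (∀ t > t0, ‖f t‖ ≤ N * t ^ (-m)) → (∀ t > t0, ‖f' t‖ ≤ N * t ^ (-m)) → ∀ t > t0,
  HasDerivAt (wu W f) (wv W f t) t ∧ wu W f t = - W.S (wv W f' t + f t) ∧
  wu W f t = - W.R (ws W f t) ∧ wv W f t = - W.R (ws W f' t)

/-- LID: the curve of the first derivatives of the solution. -/
def LidStmt : Prop := ∀ (X Y H : Type) [NormedCommRing X] [NormedAlgebra ℝ X]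
  [CompleteSpace X] [NormedAddCommGroup Y] [NormedSpace ℝ Y] [CompleteSpace Y]
  [NormedAddCommGroup H] [InnerProductSpace ℝ H] [CompleteSpace H] (A : Alg X Y H) (W : Wv A),
  ∃ C0 > 0, ∀ (f : Fin 3 → ℝ → H) (t0 m N : ℝ), 1 ≤ t0 → 1 < m → 0 ≤ N → Jet t0 f →
  Bd t0 m N f →
  Curve A t0 (fun t => - W.SX (f 1 t + wv W (f 2) t)) (fun t => - W.RY (ws W (f 2) t))
    (wv W (f 2)) ∧
  (∀ t > t0, A.e (- W.SX (f 1 t + wv W (f 2) t)) = wv W (f 0) t ∧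
    A.j (- W.RY (ws W (f 2) t)) = wv W (f 1) t) ∧
  (∀ t > t0, ‖wv W (f 0) t‖ + ‖wv W (f 1) t‖ + ‖wv W (f 2) t‖ ≤ N / (m - 1) * t ^ (1 - m)) ∧
  ∀ t > t0, ‖- W.SX (f 1 t + wv W (f 2) t)‖ + ‖- W.RY (ws W (f 2) t)‖ + ‖wv W (f 2) t‖ ≤
    C0 * (1 + 1 / (m - 1)) * N * t ^ (1 - m)

/-! ## Part N: the nonlinear problem -/

/-- POW: the powers of a curve. -/
def PowStmt : Prop := ∀ (X Y H : Type) [NormedCommRing X] [NormedAlgebra ℝ X]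
  [NormedAddCommGroup Y] [NormedSpace ℝ Y] [NormedAddCommGroup H] [InnerProductSpace ℝ H]
  (A : Alg X Y H) (t0 : ℝ) (x : ℝ → X) (y : ℝ → Y) (h : ℝ → H) (n : ℕ), Curve A t0 x y h →
  Curve A t0 (fun t => x t ^ n) (fun t => pw1 A n (x t) (y t))
    (fun t => pw2 A n (x t) (y t) (h t))

/-- DIF: the difference of two powers near a smooth curve. -/
def DifStmt : Prop := ∀ (X Y H : Type) [NormedCommRing X] [NormedAlgebra ℝ X]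
  [NormedAddCommGroup Y] [NormedSpace ℝ Y] [NormedAddCommGroup H] [InnerProductSpace ℝ H]
  (A : Alg X Y H) (n : ℕ) (M : ℝ), 2 ≤ n → 0 < M → ∃ C > 0, ∀ (w0 w1 w2 x x' : X) (y y' : Y)
  (h h' : H), ‖w0‖ + ‖w1‖ + ‖w2‖ ≤ M → ‖x‖ + ‖y‖ + ‖h‖ ≤ M → ‖x'‖ + ‖y'‖ + ‖h'‖ ≤ M →
  ‖A.e ((w0 + x) ^ n - (w0 + x') ^ n)‖ +
  ‖A.j (pw1 A n (w0 + x) (A.i w1 + y) - pw1 A n (w0 + x') (A.i w1 + y'))‖ +
  ‖pw2 A n (w0 + x) (A.i w1 + y) (A.e w2 + h) - pw2 A n (w0 + x') (A.i w1 + y') (A.e w2 + h')‖ ≤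
  gsz n w0 w1 w2 * (‖A.e (x - x')‖ + ‖A.j (y - y')‖ + ‖h - h'‖) +
  C * ((‖x‖ + ‖y‖ + ‖h‖) + (‖x'‖ + ‖y'‖ + ‖h'‖)) * (‖x - x'‖ + ‖y - y'‖ + ‖h - h'‖)

/-- FIX: the fixed point. -/
def FixStmt : Prop := ∀ (H : Type) [NormedAddCommGroup H] [InnerProductSpace ℝ H]
  [CompleteSpace H] (t0 m N0 q : ℝ) (Θ : (Fin 3 → ℝ → H) → Fin 3 → ℝ → H), 0 < t0 → 0 ≤ m →
  0 ≤ N0 → 0 ≤ q → q < 1 →
  (∀ f, Jet t0 f → Bd t0 m N0 f → Jet t0 (Θ f) ∧ Bd t0 m N0 (Θ f)) →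
  (∀ f g N, 0 ≤ N → Jet t0 f → Bd t0 m N0 f → Jet t0 g → Bd t0 m N0 g →
    Bd t0 m N (f - g) → Bd t0 m (q * N) (Θ f - Θ g)) →
  ∃ f, Jet t0 f ∧ Bd t0 m N0 f ∧ ∀ k, ∀ t > t0, Θ f k t = f k t

/-- NLP: the solution of the nonlinear problem for the remainder. -/
def NlpStmt : Prop := ∀ (X Y H : Type) [NormedCommRing X] [NormedAlgebra ℝ X]
  [CompleteSpace X] [NormedAddCommGroup Y] [NormedSpace ℝ Y] [CompleteSpace Y]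
  [NormedAddCommGroup H] [InnerProductSpace ℝ H] [CompleteSpace H] (A : Alg X Y H) (W : Wv A)
  (n : ℕ) (a t1 m c1 M N1 : ℝ) (w0 w1 w2 : ℝ → X) (r : Fin 3 → ℝ → H),
  2 ≤ n → 0 < a → 1 ≤ t1 → 2 < m → 0 ≤ c1 → c1 < m - 1 →
  (∀ t > t1, HasDerivAt w0 (w1 t) t) → (∀ t > t1, HasDerivAt w1 (w2 t) t) →
  ContinuousOn w2 (Ioi t1) → (∀ t > t1, ‖w0 t‖ + ‖w1 t‖ + ‖w2 t‖ ≤ M) →
  (∀ t > t1, a * gsz n (w0 t) (w1 t) (w2 t) ≤ c1 / t) → Jet t1 r → Bd t1 m N1 r →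
  ∃ t0 ≥ t1, ∃ (N : ℝ) (f : Fin 3 → ℝ → H), Jet t0 f ∧ Bd t0 m N f ∧ ∀ t > t0,
    f 0 t = a • A.e ((w0 t - W.SX (f 1 t + wv W (f 2) t)) ^ n - w0 t ^ n) + r 0 t

/-! ## Part A: the approximate solution -/

/-- PRD: products of trigonometric polynomials. -/
def PrdStmt : Prop := ∀ (M₁ M₂ M₃ : Type) [NormedAddCommGroup M₁] [NormedSpace ℝ M₁]
  [NormedAddCommGroup M₂] [NormedSpace ℝ M₂] [NormedAddCommGroup M₃] [NormedSpace ℝ M₃]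
  (β : M₁ →L[ℝ] M₂ →L[ℝ] M₃) (α c c' : ℕ) (P : ℝ → ℝ → M₁) (P' : ℝ → ℝ → M₂),
  P ∈ PP M₁ α c → P' ∈ PP M₂ α c' → (fun ψ δ => β (P ψ δ) (P' ψ δ)) ∈ PP M₃ α (c + c')

/-- PRM: inclusions, powers of `δ`, linear maps, the value at `δ = 0`. -/
def PrmStmt : Prop := ∀ (M M' : Type) [NormedAddCommGroup M] [NormedSpace ℝ M]
  [NormedAddCommGroup M'] [NormedSpace ℝ M'] (T : M →L[ℝ] M') (α c : ℕ),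
  (∀ c' k : ℕ, ∀ P : ℝ → ℝ → M, P ∈ PP M α c → c ≤ c' + α * k →
    (fun ψ δ => δ ^ k • P ψ δ) ∈ PP M α c') ∧
  (∀ k : ℕ, ∀ F : ℝ → M, F ∈ TP M (c + α * k) → (fun ψ δ => δ ^ k • F ψ) ∈ PP M α c) ∧
  (∀ P : ℝ → ℝ → M, P ∈ PP M α c → (fun ψ δ => T (P ψ δ)) ∈ PP M' α c ∧
    (fun ψ => P ψ 0) ∈ TP M c ∧ ∃ Q ∈ PP M α (c + α), ∀ ψ δ, P ψ δ = P ψ 0 + δ • Q ψ δ)

/-- DER: derivatives and the chain rule. -/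
def DerStmt : Prop := ∀ (M : Type) [NormedAddCommGroup M] [NormedSpace ℝ M] (α c : ℕ)
  (P : ℝ → ℝ → M), P ∈ PP M α c →
  dps P ∈ PP M α c ∧ ddl P ∈ PP M α c ∧ (Od P → Od (dps P) ∧ Od (ddl P)) ∧
  (∀ ψ δ, HasDerivAt (fun s => P s δ) (dps P ψ δ) ψ) ∧
  (∀ ψ δ, DifferentiableAt ℝ (fun s => P ψ s) δ) ∧
  ∀ (ψ δ : ℝ → ℝ) (t ψ' s : ℝ), HasDerivAt ψ ψ' t → HasDerivAt δ (δ t * s) t →
    HasDerivAt (fun r => P (ψ r) (δ r)) (ψ' • dps P (ψ t) (δ t) + s • ddl P (ψ t) (δ t)) t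

/-- PLY: the operator `D`. -/
def PlyStmt : Prop := ∀ (M : Type) [NormedAddCommGroup M] [NormedSpace ℝ M] (α c : ℕ)
  (ω : ℝ) (a b : Polynomial ℝ) (P : ℝ → ℝ → M), P ∈ PP M α c →
  (fun ψ δ => a.eval δ • P ψ δ) ∈ PP M α c ∧ DD α ω a b P ∈ PP M α c ∧
  (Od P → Od (DD α ω a b P)) ∧
  ∀ (k : ℕ) (ψ δ : ℝ), DD α ω a b (fun ψ δ => δ ^ k • P ψ δ) ψ δ =
    δ ^ k • (DD α ω a b P ψ δ + ((α : ℝ) * k * a.eval δ) • P ψ δ)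

/-- DDB: bounds for the derivatives of `δ ^ k P`. -/
def DdbStmt : Prop := ∀ (M : Type) [NormedAddCommGroup M] [NormedSpace ℝ M] (α c : ℕ)
  (ω : ℝ) (a b : Polynomial ℝ) (P : ℝ → ℝ → M) (k : ℕ), P ∈ PP M α c →
  ∃ C : ℝ, ∀ ψ δ : ℝ, 0 ≤ δ → δ ≤ 1 →
    ‖δ ^ k • P ψ δ‖ + ‖DD α ω a b (fun ψ δ => δ ^ k • P ψ δ) ψ δ‖ +
    ‖DD α ω a b (DD α ω a b (fun ψ δ => δ ^ k • P ψ δ)) ψ δ‖ ≤ C * δ ^ k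

/-- EVA: bounds for `0 ≤ δ ≤ 1`. -/
def EvaStmt : Prop := ∀ (M : Type) [NormedAddCommGroup M] [NormedSpace ℝ M] (α c : ℕ)
  (P : ℝ → ℝ → M), P ∈ PP M α c → ∃ C : ℝ, ∀ ψ δ : ℝ, 0 ≤ δ → δ ≤ 1 →
  ‖P ψ δ‖ ≤ C ∧ ‖P ψ δ - P ψ 0‖ ≤ C * δ

/-- RES: solution of the equation at one order. -/
def ResStmt : Prop := ∀ (H : Type) [NormedAddCommGroup H] [InnerProductSpace ℝ H]
  (S : H →L[ℝ] H) (ω : ℝ) (φ : H) (M : ℕ), 0 < ω → φ ≠ 0 → Slv S ω φ M →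
  ∀ F ∈ TP H M, (∀ ψ, F (ψ + Real.pi) = - F ψ) → ∃ (b' : ℝ) (q q' q'' : ℝ → H),
    q ∈ TP H M ∧ (∀ ψ, q (ψ + Real.pi) = - q ψ) ∧
    (∀ ψ, HasDerivAt q (q' ψ) ψ) ∧ (∀ ψ, HasDerivAt q' (q'' ψ) ψ) ∧
    ∀ ψ, (ω ^ 2) • S (q'' ψ) + q ψ =
      - (F ψ - (2 * ω * b' * Real.cos ψ) • φ - (sc φ F * Real.sin ψ) • φ)

/-- BAS: the approximation of order zero. -/
def BasStmt : Prop := ∀ (X Y H : Type) [NormedCommRing X] [NormedAlgebra ℝ X]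
  [NormedAddCommGroup Y] [NormedSpace ℝ Y] [NormedAddCommGroup H] [InnerProductSpace ℝ H]
  (A : Alg X Y H) (W : Wv A) (p : ℕ) (a0 ω : ℝ) (φ : H), 1 ≤ p → 0 < ω →
  (ω ^ 2) • W.S φ = φ → 0 < ⟪A.e (W.SX ((ω ^ 2) • φ) ^ (2 * p + 1)), φ⟫_ℝ →
  ∃ Q : ℝ → ℝ → H, Apx W p a0 ω φ 0 0 0 (fun ψ _ => Real.cos ψ • W.SX ((ω ^ 2) • φ))
    (fun ψ _ => (ω ^ 2 * Real.cos ψ) • φ) Q ∧
  sc φ (fun ψ => Q ψ 0) / (2 * ω) = - (a0 * ω ^ (2 * p) * cp p *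
    (⟪A.e (W.SX ((ω ^ 2) • φ) ^ (2 * p + 1)), φ⟫_ℝ / ⟪φ, φ⟫_ℝ) / 2)

/-- STP: from one order to the next. -/
def StpStmt : Prop := ∀ (X Y H : Type) [NormedCommRing X] [NormedAlgebra ℝ X]
  [NormedAddCommGroup Y] [NormedSpace ℝ Y] [NormedAddCommGroup H] [InnerProductSpace ℝ H]
  (A : Alg X Y H) (W : Wv A) (p : ℕ) (a0 ω : ℝ) (φ : H) (K : ℕ) (a b : Polynomial ℝ)
  (P : ℝ → ℝ → X) (q Q : ℝ → ℝ → H), 1 ≤ p → 0 < ω → φ ≠ 0 → (ω ^ 2) • W.S φ = φ →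
  Slv W.S ω φ (1 + 2 * p * (K + 1)) → Apx W p a0 ω φ K a b P q Q →
  ∃ (b' : ℝ) (P' : ℝ → ℝ → X) (q' Q' : ℝ → ℝ → H), Apx W p a0 ω φ (K + 1)
    (a + Polynomial.monomial (K + 1) (sc φ (fun ψ => Q ψ 0) / (2 * ω)))
    (b + Polynomial.monomial (K + 1) b') P' q' Q'

/-- APX: approximations of all orders, with the first coefficient of `a`. -/
def ApxStmt : Prop := ∀ (X Y H : Type) [NormedCommRing X] [NormedAlgebra ℝ X]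
  [NormedAddCommGroup Y] [NormedSpace ℝ Y] [NormedAddCommGroup H] [InnerProductSpace ℝ H]
  (A : Alg X Y H) (W : Wv A) (p : ℕ) (a0 ω : ℝ) (φ : H) (K : ℕ), 1 ≤ p → 0 < ω → φ ≠ 0 →
  (ω ^ 2) • W.S φ = φ → 0 < ⟪A.e (W.SX ((ω ^ 2) • φ) ^ (2 * p + 1)), φ⟫_ℝ → 1 ≤ K →
  Slv W.S ω φ (1 + 2 * p * K) →
  ∃ (a b : Polynomial ℝ) (P : ℝ → ℝ → X) (q Q : ℝ → ℝ → H), Apx W p a0 ω φ K a b P q Q ∧
    a.coeff 1 = - (a0 * ω ^ (2 * p) * cp p *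
      (⟪A.e (W.SX ((ω ^ 2) • φ) ^ (2 * p + 1)), φ⟫_ℝ / ⟪φ, φ⟫_ℝ) / 2)

/-- TRJ: the amplitude and the phase. -/
def TrjStmt : Prop := ∀ (α : ℕ) (ω : ℝ) (a b : Polynomial ℝ), 1 ≤ α → a.eval 0 = 0 →
  a.coeff 1 < 0 → ∃ (t1 : ℝ) (δ ψ : ℝ → ℝ), 1 ≤ t1 ∧
  (∀ t > t1, 0 < δ t ∧ δ t ≤ 1 ∧ HasDerivAt δ (δ t * (α * a.eval (δ t))) t ∧
    HasDerivAt ψ (ω + b.eval (δ t)) t) ∧
  Tendsto (fun t => t * δ t) atTop (𝓝 (1 / (α * |a.coeff 1|)))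

/-- TRP: evaluation along the trajectory. -/
def TrpStmt : Prop := ∀ (M : Type) [NormedAddCommGroup M] [NormedSpace ℝ M] (α c : ℕ)
  (ω : ℝ) (a b : Polynomial ℝ) (P : ℝ → ℝ → M) (δ ψ : ℝ → ℝ) (t : ℝ), 1 ≤ α →
  P ∈ PP M α c → 0 < δ t → HasDerivAt δ (δ t * (α * a.eval (δ t))) t →
  HasDerivAt ψ (ω + b.eval (δ t)) t →
  DD α ω a b P ∈ PP M α c ∧
  HasDerivAt (fun s => (δ s ^ (1 / (α : ℝ))) • P (ψ s) (δ s))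
    ((δ t ^ (1 / (α : ℝ))) • DD α ω a b P (ψ t) (δ t)) t

/-- The constant in the condition on the order. -/
def kap (p : ℕ) (ω : ℝ) (nφ γ : ℝ) : ℝ :=
  (2 * p + 1) * (1 + 2 * p * ω) ^ 2 * nφ ^ (2 * p) / (p * cp p * γ)

/-- GSZ: the size of the derivative of the power map along the approximate solution. -/
def GszStmt : Prop := ∀ (X : Type) [NormedCommRing X] [NormedAlgebra ℝ X] (p : ℕ)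
  (ω C : ℝ) (x : X), 1 ≤ p → 0 < ω → ∃ C' : ℝ, ∀ (ψ δ : ℝ) (v0 v1 v2 : X), 0 ≤ δ → δ ≤ 1 →
  ‖v0 + (ω * Real.sin ψ) • x‖ ≤ C * δ → ‖v1 + (ω ^ 2 * Real.cos ψ) • x‖ ≤ C * δ →
  ‖v2 - (ω ^ 3 * Real.sin ψ) • x‖ ≤ C * δ →
  gsz (2 * p + 1) v0 v1 v2 ≤ (2 * p + 1) * (1 + 2 * p * ω) ^ 2 * (ω * ‖x‖) ^ (2 * p) + C' * δ

/-- ENG: the energy of the approximate solution. -/
def EngStmt : Prop := ∀ (H : Type) [NormedAddCommGroup H] [InnerProductSpace ℝ H]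
  (R : H →L[ℝ] H) (ω C : ℝ) (φ : H), 0 < ω → φ ≠ 0 → (∀ h k, ⟪R h, k⟫_ℝ = ⟪h, R k⟫_ℝ) →
  (ω ^ 2) • R (R φ) = φ → ∃ (δ1 c' C' : ℝ), 0 < δ1 ∧ 0 < c' ∧ ∀ (ψ δ : ℝ) (v q : H), 0 ≤ δ →
  δ ≤ δ1 → ‖v + (ω * Real.sin ψ) • φ‖ ≤ C * δ → ‖q - (ω ^ 2 * Real.cos ψ) • φ‖ ≤ C * δ →
  c' ≤ ‖v‖ ^ 2 + ‖R q‖ ^ 2 ∧ ‖v‖ ^ 2 + ‖R q‖ ^ 2 ≤ C'

/-- ASM: the approximate solution as a function of time, with all the bounds. -/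
def AsmStmt : Prop := ∀ (X Y H : Type) [NormedCommRing X] [NormedAlgebra ℝ X]
  [NormedAddCommGroup Y] [NormedSpace ℝ Y] [NormedAddCommGroup H] [InnerProductSpace ℝ H]
  (A : Alg X Y H) (W : Wv A) (p : ℕ) (a0 ω : ℝ) (φ : H) (K : ℕ), 1 ≤ p → 0 < a0 → 0 < ω →
  φ ≠ 0 → (ω ^ 2) • W.S φ = φ → 0 < ⟪A.e (W.SX ((ω ^ 2) • φ) ^ (2 * p + 1)), φ⟫_ℝ → 1 ≤ K →
  kap p ω ‖W.SX ((ω ^ 2) • φ)‖
    (⟪A.e (W.SX ((ω ^ 2) • φ) ^ (2 * p + 1)), φ⟫_ℝ / ⟪φ, φ⟫_ℝ) ≤ K →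
  Slv W.S ω φ (1 + 2 * p * K) →
  ∃ (t1 c1 M N1 c C : ℝ) (w0 w1 w2 : ℝ → X) (k g : ℝ → H) (r : Fin 3 → ℝ → H),
    1 ≤ t1 ∧ 0 ≤ c1 ∧ c1 < K + 1 / (2 * (p : ℝ)) ∧ 0 < c ∧
    (∀ t > t1, HasDerivAt w0 (w1 t) t) ∧ (∀ t > t1, HasDerivAt w1 (w2 t) t) ∧
    ContinuousOn w2 (Ioi t1) ∧ (∀ t > t1, ‖w0 t‖ + ‖w1 t‖ + ‖w2 t‖ ≤ M) ∧
    (∀ t > t1, a0 * gsz (2 * p + 1) (w0 t) (w1 t) (w2 t) ≤ c1 / t) ∧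
    Jet t1 r ∧ Bd t1 (K + 1 + 1 / (2 * (p : ℝ))) N1 r ∧
    ContinuousOn g (Ioi t1) ∧ (∀ t > t1, w0 t = W.SX (k t)) ∧
    (∀ t > t1, HasDerivAt (fun s => W.S (g s)) (A.e (w0 t)) t) ∧
    (∀ t > t1, r 0 t = A.e (w1 t) + g t + a0 • A.e (w0 t ^ (2 * p + 1))) ∧
    ∀ t > t1, c * t ^ (- (1 / (p : ℝ))) ≤ ‖A.e (w0 t)‖ ^ 2 + ‖W.R (g t)‖ ^ 2 ∧
      ‖A.e (w0 t)‖ ^ 2 + ‖W.R (g t)‖ ^ 2 ≤ C * t ^ (- (1 / (p : ℝ)))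

/-- ABS: the abstract theorem. -/
def AbsStmt : Prop := ∀ (X Y H : Type) [NormedCommRing X] [NormedAlgebra ℝ X]
  [CompleteSpace X] [NormedAddCommGroup Y] [NormedSpace ℝ Y] [CompleteSpace Y]
  [NormedAddCommGroup H] [InnerProductSpace ℝ H] [CompleteSpace H] (A : Alg X Y H) (W : Wv A)
  (p : ℕ) (a0 ω : ℝ) (φ : H) (K : ℕ), 1 ≤ p → 0 < a0 → 0 < ω →
  φ ≠ 0 → (ω ^ 2) • W.S φ = φ → 0 < ⟪A.e (W.SX ((ω ^ 2) • φ) ^ (2 * p + 1)), φ⟫_ℝ → 1 ≤ K →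
  kap p ω ‖W.SX ((ω ^ 2) • φ)‖
    (⟪A.e (W.SX ((ω ^ 2) • φ) ^ (2 * p + 1)), φ⟫_ℝ / ⟪φ, φ⟫_ℝ) ≤ K →
  Slv W.S ω φ (1 + 2 * p * K) →
  ∃ (t0 c C : ℝ) (u : ℝ → H) (x : ℝ → X) (k w h : ℝ → H), 1 ≤ t0 ∧ 0 < c ∧
    ContinuousOn w (Ioi t0) ∧ ContinuousOn h (Ioi t0) ∧
    ∀ t > t0, HasDerivAt u (A.e (x t)) t ∧ HasDerivAt (fun s => A.e (x s)) (w t) t ∧
      x t = W.SX (k t) ∧ u t = W.S (h t) ∧ w t + h t + a0 • A.e (x t ^ (2 * p + 1)) = 0 ∧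
      c * t ^ (- (1 / (p : ℝ))) ≤ ‖A.e (x t)‖ ^ 2 + ⟪h t, W.S (h t)⟫_ℝ ∧
      ‖A.e (x t)‖ ^ 2 + ⟪h t, W.S (h t)⟫_ℝ ≤ C * t ^ (- (1 / (p : ℝ)))

end

end Pool.Agent.BE01
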