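import Pool.Agent.BE01.DefsC
import Pool.Agent.BE01.Stmts

/-!
# Squad BE01 (MP_be01ff_an): statements of the concrete modules. See /team-store/PAPER_BE01.md
-/

namespace Pool.Agent.BE01

open Set Filter Topology MeasureTheory
open scoped InnerProductSpace ENNReal

noncomputable section

/-! ## Part C: the Dirichlet problem -/

/-- SOB: Sobolev inequality. -/
def SobStmt : Prop := ∀ (d : ℕ) (Ω : Set (En d)), (d = 2 ∨ d = 3) → Dom Ω → ∃ C : ℝ, 0 < C ∧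
  ∀ ψ, Tst Ω ψ → eLpNorm ψ 6 (mu Ω) ≤ ENNReal.ofReal C * eLpNorm (gradient ψ) 2 (mu Ω)

/-- EMB: the embedding. -/
def EmbStmt : Prop := ∀ (d : ℕ) (Ω : Set (En d)), (d = 2 ∨ d = 3) → Dom Ω →
  ∃ ι : VV Ω →L[ℝ] Lp ℝ 6 (mu Ω), Emb Ω ι ∧
  ∀ (u : Lp ℝ 2 (mu Ω)) (G : Lp (En d) 2 (mu Ω)), (u, G) ∈ H10 Ω ↔
    ∃ hG : G ∈ VV Ω, u =ᵐ[mu Ω] ι ⟨G, hG⟩

/-- CHN: the chain rule. -/
def ChnStmt : Prop := ∀ (d : ℕ) (Ω : Set (En d)) (ι : VV Ω →L[ℝ] Lp ℝ 6 (mu Ω)) (Φ : ℝ → ℝ)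
  (M : ℝ), Dom Ω → Emb Ω ι → ContDiff ℝ ((⊤ : ℕ∞) : WithTop ℕ∞) Φ → Φ 0 = 0 →
  (∀ s, |deriv Φ s| ≤ M) → ∀ G : VV Ω, ∃ G' : VV Ω,
    ι G' =ᵐ[mu Ω] (fun x => Φ (ι G x)) ∧
    (G' : Lp (En d) 2 (mu Ω)) =ᵐ[mu Ω]
      fun x => deriv Φ (ι G x) • (G : Lp (En d) 2 (mu Ω)) x

/-- STL: Stampacchia's lemma. -/
def StlStmt : Prop := ∀ (f : ℝ → ℝ) (D a0 : ℝ), 0 < D → 0 ≤ a0 → (∀ k, 0 ≤ f k) →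
  (∀ k h, 0 ≤ k → k < h → f h ≤ f k) → f 0 ≤ a0 →
  (∀ k h, 0 ≤ k → k < h → f h ≤ (D / (h - k)) ^ 3 * f k ^ (3 / 2 : ℝ)) →
  ∀ k, 8 * D * a0 ^ (1 / 6 : ℝ) < k → f k = 0

/-- LVL: the measures of the level sets. -/
def LvlStmt : Prop := ∀ (d : ℕ) (Ω : Set (En d)) (ι : VV Ω →L[ℝ] Lp ℝ 6 (mu Ω)), Dom Ω →
  Emb Ω ι → ∃ C : ℝ, 0 < C ∧ ∀ (f : Lp ℝ 2 (mu Ω)) (G : VV Ω),
    (∀ ψ, Tst Ω ψ → ∫ x, ⟪(G : Lp (En d) 2 (mu Ω)) x, gradient ψ x⟫_ℝ ∂(mu Ω) =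
      ∫ x, f x * ψ x ∂(mu Ω)) → ∀ k h : ℝ, 0 ≤ k → k < h →
    (mu Ω).real {x | h < ι G x} ≤
      (C * ‖f‖ / (h - k)) ^ 3 * (mu Ω).real {x | k < ι G x} ^ (3 / 2 : ℝ)

/-- STA: the solution of the Dirichlet problem is bounded. -/
def StaStmt : Prop := ∀ (d : ℕ) (Ω : Set (En d)) (ι : VV Ω →L[ℝ] Lp ℝ 6 (mu Ω)), Dom Ω →
  Emb Ω ι → ∃ C : ℝ, 0 < C ∧ ∀ (f : Lp ℝ 2 (mu Ω)) (G : VV Ω),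
    (∀ ψ, Tst Ω ψ → ∫ x, ⟪(G : Lp (En d) 2 (mu Ω)) x, gradient ψ x⟫_ℝ ∂(mu Ω) =
      ∫ x, f x * ψ x ∂(mu Ω)) → ∀ᵐ x ∂(mu Ω), |ι G x| ≤ C * ‖f‖

/-- DNS: test functions are dense. -/
def DnsStmt : Prop := ∀ (d : ℕ) (Ω : Set (En d)), Dom Ω →
  closure {f : Lp ℝ 2 (mu Ω) | ∃ ψ, Tst Ω ψ ∧ f =ᵐ[mu Ω] ψ} = univ

/-- INC: the inclusions of `L^6` in `L^4` and of `L^4` in `L^2`. -/
def IncStmt : Prop := ∀ (s : Type) [MeasurableSpace s] (μ : Measure s) [IsFiniteMeasure μ],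
  (∃ J : Lp ℝ 6 μ →L[ℝ] Lp ℝ 4 μ, ∀ y, J y =ᵐ[μ] y) ∧
  ∃ J : Lp ℝ 4 μ →L[ℝ] Lp ℝ 2 μ, ∀ y, J y =ᵐ[μ] y

/-- ALG: the algebra `L^∞` and its products. -/
def AlgStmt : Prop := ∀ (s : Type) [MeasurableSpace s] (μ : Measure s) [IsFiniteMeasure μ],
  ∃ (X : Type) (_ : NormedCommRing X) (_ : NormedAlgebra ℝ X) (_ : CompleteSpace X)
    (A : Alg X (Lp ℝ 4 μ) (Lp ℝ 2 μ)),
    (∀ x, ∀ᵐ z ∂μ, |A.e x z| ≤ ‖x‖) ∧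
    (∀ (h : Lp ℝ 2 μ) (C : ℝ), 0 ≤ C → (∀ᵐ z ∂μ, |h z| ≤ C) → ∃ x, A.e x = h ∧ ‖x‖ ≤ C) ∧
    (∀ x x', A.e (x * x') =ᵐ[μ] fun z => A.e x z * A.e x' z) ∧
    (A.e 1 =ᵐ[μ] fun _ => 1) ∧ ∀ y, A.j y =ᵐ[μ] y

/-- HSC: operators from `L^2` to `L^∞` are compact. -/
def HscStmt : Prop := ∀ (s : Type) [MeasurableSpace s] (μ : Measure s) [IsFiniteMeasure μ]
  (T : Lp ℝ 2 μ →L[ℝ] Lp ℝ 2 μ) (C : ℝ), 0 ≤ C →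
  (∀ f, ∀ᵐ z ∂μ, |T f z| ≤ C * ‖f‖) → IsCompactOperator T

/-- EIB: the basis of eigenvectors. -/
def EibStmt : Prop := ∀ (H : Type) [NormedAddCommGroup H] [InnerProductSpace ℝ H]
  [CompleteSpace H] (S : H →L[ℝ] H), IsCompactOperator S → (∀ h k, ⟪S h, k⟫_ℝ = ⟪h, S k⟫_ℝ) →
  (∀ h, h ≠ 0 → 0 < ⟪S h, h⟫_ℝ) →
  ∃ (κ : Type) (b : HilbertBasis κ ℝ H) (s : κ → ℝ), (∀ k, 0 < s k) ∧ ∀ k, S (b k) = s k • b k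

/-- DIA: the operators defined by an eigenbasis. -/
def DiaStmt : Prop := ∀ (H : Type) [NormedAddCommGroup H] [InnerProductSpace ℝ H]
  [CompleteSpace H] (S : H →L[ℝ] H) (κ : Type) (b : HilbertBasis κ ℝ H) (s : κ → ℝ),
  (∀ k, 0 < s k) → (∀ k, S (b k) = s k • b k) →
  ∃ (R : H →L[ℝ] H) (C Sn : ℝ → H →L[ℝ] H), Prp H S R C Sn

/-- SPC: the square root and the wave operators. -/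
def SpcStmt : Prop := ∀ (V H : Type) [NormedAddCommGroup V] [InnerProductSpace ℝ V]
  [CompleteSpace V] [NormedAddCommGroup H] [InnerProductSpace ℝ H] [CompleteSpace H]
  (ι : V →L[ℝ] H), DenseRange ι → IsCompactOperator (ι.comp (ContinuousLinearMap.adjoint ι)) →
  ∃ (R : H →L[ℝ] H) (C Sn : ℝ → H →L[ℝ] H) (U : H →L[ℝ] V),
    Prp H (ι.comp (ContinuousLinearMap.adjoint ι)) R C Sn ∧ ∀ h, R h = ι (U h)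

/-- FRE: the Fredholm alternative. -/
def FreStmt : Prop := ∀ (H : Type) [NormedAddCommGroup H] [InnerProductSpace ℝ H]
  [CompleteSpace H] (S : H →L[ℝ] H) (l : ℝ), IsCompactOperator S →
  (∀ h k, ⟪S h, k⟫_ℝ = ⟪h, S k⟫_ℝ) →
  ((∀ u, u = l • S u → u = 0) → ∀ F : H, ∃ q : H, q - l • S q = F) ∧
  ∀ φ : H, φ ≠ 0 → φ = l • S φ → (∀ u, u = l • S u → ∃ c : ℝ, u = c • φ) →
    ∀ F : H, ⟪F, φ⟫_ℝ = 0 → ∃ q : H, q - l • S q = F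

/-- WVC: all the operators for a domain. -/
def WvcStmt : Prop := ∀ (d : ℕ) (Ω : Set (En d)), (d = 2 ∨ d = 3) → Dom Ω →
  ∃ (X : Type) (_ : NormedCommRing X) (_ : NormedAlgebra ℝ X) (_ : CompleteSpace X)
    (A : Alg X (Lp ℝ 4 (mu Ω)) (Lp ℝ 2 (mu Ω))) (W : Wv A)
    (Z : Lp ℝ 2 (mu Ω) →L[ℝ] Lp (En d) 2 (mu Ω)),
    (∀ x, ∀ᵐ z ∂(mu Ω), |A.e x z| ≤ ‖x‖) ∧
    (∀ x x', A.e (x * x') =ᵐ[mu Ω] fun z => A.e x z * A.e x' z) ∧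
    (A.e 1 =ᵐ[mu Ω] fun _ => 1) ∧
    IsCompactOperator W.S ∧
    (∀ h, (W.S h, Z h) ∈ H10 Ω) ∧ (∀ h, ‖Z h‖ ^ 2 = ⟪h, W.S h⟫_ℝ) ∧
    (∀ h ψ, Tst Ω ψ → ∫ x, ⟪Z h x, gradient ψ x⟫_ℝ ∂(mu Ω) = ∫ x, h x * ψ x ∂(mu Ω)) ∧
    ∀ (l : ℝ) (u : Lp ℝ 2 (mu Ω)), IsEig Ω l u ↔ u = l • W.S u

/-- FNL: the theorem. -/
def FnlStmt : Prop := ∀ (d : ℕ) (Ω : Set (En d)) (p : ℕ) (a l : ℝ) (φ : Lp ℝ 2 (mu Ω)),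
  (d = 2 ∨ d = 3) → Dom Ω → 1 ≤ p → 0 < a → φ ≠ 0 → IsEig Ω l φ →
  (∀ u, IsEig Ω l u → ∃ c : ℝ, u = c • φ) →
  ∃ M : ℕ, (∀ n : ℕ, Odd n → 3 ≤ n → n ≤ M → ∀ u, IsEig Ω ((n : ℝ) ^ 2 * l) u → u = 0) →
    ∃ (u v w : ℝ → Lp ℝ 2 (mu Ω)) (G : ℝ → Lp (En d) 2 (mu Ω)),
      IsSol Ω a ((2 * p : ℕ) : ℝ) u v w G ∧
      ∃ c C : ℝ, 0 < c ∧ ∀ t, 0 ≤ t →
        c * (1 + t) ^ (-(2 / ((2 * p : ℕ) : ℝ))) ≤ energy Ω v G t ∧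
        energy Ω v G t ≤ C * (1 + t) ^ (-(2 / ((2 * p : ℕ) : ℝ)))

end

end Pool.Agent.BE01
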