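import Pool.Agent.BE01.DefsS
import Pool.Agent.BE01.Stmts

/-!
# Squad BE01 (MP_be01ff_an), second theorem: all spherical shells in dimension `d ≠ 3`. Statements.
See /team-store/PAPER_BE01S.md
-/

namespace Pool.Agent.BE01

open Set Filter Topology MeasureTheory
open scoped InnerProductSpace ENNReal

noncomputable section

/-- POL: polar coordinates for radial functions. -/
def PolStmt : Prop := ∀ (d : ℕ) (r0 r1 : ℝ) (h : r0 ≤ r1), 1 ≤ d → 0 < r0 → r0 < r1 →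
  0 < sg d ∧ IsFiniteMeasure (nu d h) ∧ (∀ U : Set (Ic r0 r1), IsOpen U → U.Nonempty →
    0 < nu d h U) ∧ (∀ r, nu d h {r} = 0) ∧
  ∀ f : Ic r0 r1 → ℝ, StronglyMeasurable f → (∃ C, ∀ᵐ s ∂(nu d h), |f s| ≤ C) ∨
    Integrable f (nu d h) → ∫ s, f s ∂(nu d h) =
    sg d * ∫ r in r0..r1, r ^ (d - 1) * f (projIcc r0 r1 h r)

/-- IFD: `L^2` is not finite dimensional. -/
def IfdStmt : Prop := ∀ (d : ℕ) (r0 r1 : ℝ) (h : r0 ≤ r1), 1 ≤ d → 0 < r0 → r0 < r1 →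
  ¬ FiniteDimensional ℝ (Lp ℝ 2 (nu d h))

/-- AL1: the algebra of continuous functions. -/
def Al1Stmt : Prop := ∀ (r0 r1 : ℝ) (μ : Measure (Ic r0 r1)) [IsFiniteMeasure μ],
  (∀ U : Set (Ic r0 r1), IsOpen U → U.Nonempty → 0 < μ U) →
  ∃ A : Alg C(Ic r0 r1, ℝ) C(Ic r0 r1, ℝ) (Lp ℝ 2 μ), ∀ x, A.e x =ᵐ[μ] x

/-- OPR: the solution operator of the radial equation. -/
def OprStmt : Prop := ∀ (d : ℕ) (r0 r1 : ℝ) (h : r0 ≤ r1), 1 ≤ d → 0 < r0 → r0 < r1 →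
  ∃ D SX : Lp ℝ 2 (nu d h) →L[ℝ] C(Ic r0 r1, ℝ), Opr D SX

/-- WVA: the wave operators from a solution operator with values in `X`. -/
def WvaStmt : Prop := ∀ (X Y H : Type) [NormedCommRing X] [NormedAlgebra ℝ X]
  [CompleteSpace X] [NormedAddCommGroup Y] [NormedSpace ℝ Y] [CompleteSpace Y]
  [NormedAddCommGroup H] [InnerProductSpace ℝ H] [CompleteSpace H] (A : Alg X Y H)
  (SX : H →L[ℝ] X) (C : ℝ), IsCompactOperator (A.e.comp SX) →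
  (∀ h k, ⟪A.e (SX h), k⟫_ℝ = ⟪h, A.e (SX k)⟫_ℝ) → (∀ h, h ≠ 0 → 0 < ⟪A.e (SX h), h⟫_ℝ) →
  (∀ h, ‖SX h‖ ^ 2 ≤ C * ⟪A.e (SX h), h⟫_ℝ) → ∃ W : Wv A, W.SX = SX

/-- RDS: all the operators for radial functions. -/
def RdsStmt : Prop := ∀ (d : ℕ) (r0 r1 : ℝ) (h : r0 ≤ r1), 1 ≤ d → 0 < r0 → r0 < r1 →
  ∃ (A : Alg C(Ic r0 r1, ℝ) C(Ic r0 r1, ℝ) (Lp ℝ 2 (nu d h))) (W : Wv A)
    (D : Lp ℝ 2 (nu d h) →L[ℝ] C(Ic r0 r1, ℝ)), (∀ x, A.e x =ᵐ[nu d h] x) ∧ Opr D W.SX ∧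
    IsCompactOperator W.S

/-- EIG: the differential equation for the eigenfunctions. -/
def EigStmt : Prop := ∀ (d : ℕ) (r0 r1 : ℝ) (h : r0 ≤ r1)
  (D SX : Lp ℝ 2 (nu d h) →L[ℝ] C(Ic r0 r1, ℝ)) (l : ℝ) (k : Lp ℝ 2 (nu d h)), 1 ≤ d → 0 < r0 →
  r0 < r1 → Opr D SX → k =ᵐ[nu d h] (fun r => l * SX k r) →
  ∃ w w' : ℝ → ℝ, SLe (((d : ℝ) - 1) * (d - 3) / 4) l r0 r1 w w' ∧ w r1 = 0 ∧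
    ∀ r : Ic r0 r1, w r = (r : ℝ) ^ (((d : ℝ) - 1) / 2) * (l * SX k r)

/-- UNI: uniqueness for the initial value problem. -/
def UniStmt : Prop := ∀ (c l r0 r1 : ℝ) (w w' v v' : ℝ → ℝ), 0 < r0 → r0 < r1 →
  SLe c l r0 r1 w w' → SLe c l r0 r1 v v' → ∀ r ∈ Icc r0 r1, v' r0 * w r = w' r0 * v r

/-- PRU: existence of the phase and the amplitude. -/
def PruStmt : Prop := ∀ c ω r0 r1 : ℝ, 0 < r0 → r0 < r1 → 0 < ω → ∃ θ ρ : ℝ → ℝ,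
  Pru c ω r0 r1 θ ρ ∧
  SLe c (ω ^ 2) r0 r1 (fun r => ρ r * Real.sin (θ r)) (fun r => ω * ρ r * Real.cos (θ r))

/-- ASY: asymptotics of the phase. -/
def AsyStmt : Prop := ∀ c r0 r1 : ℝ, 0 < r0 → r0 < r1 → ∃ C > 0, ∀ (ω : ℝ) (θ ρ : ℝ → ℝ),
  1 ≤ ω → Pru c ω r0 r1 θ ρ →
  |θ r1 - (ω * (r1 - r0) - c * (1 / r0 - 1 / r1) / (2 * ω))| ≤ C / ω ^ 2

/-- AMP: bounds for the solution. -/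
def AmpStmt : Prop := ∀ c r0 r1 : ℝ, 0 < r0 → r0 < r1 → ∃ C > 0, ∃ ω0 : ℝ, 1 ≤ ω0 ∧
  ∀ (ω : ℝ) (θ ρ : ℝ → ℝ), ω0 ≤ ω → Pru c ω r0 r1 θ ρ → ∀ r ∈ Icc r0 r1,
  (ρ r * Real.sin (θ r)) ^ 2 ≤ C * ∫ s in r0..r1, (ρ s * Real.sin (θ s)) ^ 2

/-- ODE: the eigenfunctions of the differential equation. -/
def OdeStmt : Prop := ∀ c r0 r1 : ℝ, 0 < r0 → r0 < r1 → ∃ C > 0, ∃ ω0 : ℝ, 1 ≤ ω0 ∧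
  ∀ (ω : ℝ) (w w' : ℝ → ℝ), ω0 ≤ ω → SLe c (ω ^ 2) r0 r1 w w' → w r1 = 0 →
  (∃ r ∈ Icc r0 r1, w r ≠ 0) →
  (∃ m : ℤ, |ω * (r1 - r0) - c * (1 / r0 - 1 / r1) / (2 * ω) - m * Real.pi| ≤ C / ω ^ 2) ∧
  ∀ r ∈ Icc r0 r1, w r ^ 2 ≤ C * ∫ s in r0..r1, w s ^ 2

/-- NRS: no resonance for large frequencies. -/
def NrsStmt : Prop := ∀ (L v C : ℝ) (M : ℕ), 0 < L → v ≠ 0 → 0 < C → ∃ ω1 : ℝ, 1 ≤ ω1 ∧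
  ∀ (ω : ℝ) (n : ℕ), ω1 ≤ ω → 2 ≤ n → n ≤ M →
  (∃ m : ℤ, |ω * L - v / (2 * ω) - m * Real.pi| ≤ C / ω ^ 2) →
  ¬ ∃ m : ℤ, |(n * ω) * L - v / (2 * (n * ω)) - m * Real.pi| ≤ C / (n * ω) ^ 2

/-- INF: there are arbitrarily large frequencies. -/
def InfStmt : Prop := ∀ (H : Type) [NormedAddCommGroup H] [InnerProductSpace ℝ H]
  [CompleteSpace H] (S : H →L[ℝ] H), IsCompactOperator S → (∀ h k, ⟪S h, k⟫_ℝ = ⟪h, S k⟫_ℝ) →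
  (∀ h, h ≠ 0 → 0 < ⟪S h, h⟫_ℝ) → ¬ FiniteDimensional ℝ H → ∀ Λ : ℝ, ∃ ω ≥ Λ, 0 < ω ∧
  ∃ u : H, u ≠ 0 ∧ u = (ω ^ 2) • S u

/-- SPB: bounds and the phase of the eigenfunctions with large frequencies. -/
def SpbStmt : Prop := ∀ (d : ℕ) (r0 r1 : ℝ) (h : r0 ≤ r1)
  (D SX : Lp ℝ 2 (nu d h) →L[ℝ] C(Ic r0 r1, ℝ)), 1 ≤ d → 0 < r0 → r0 < r1 → Opr D SX →
  ∃ B > 0, ∃ ω0 : ℝ, 1 ≤ ω0 ∧ ∀ (ω : ℝ) (φ : Lp ℝ 2 (nu d h)), ω0 ≤ ω → φ ≠ 0 →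
    φ =ᵐ[nu d h] (fun r => ω ^ 2 * SX φ r) → ‖SX ((ω ^ 2) • φ)‖ ^ 2 ≤ B * ⟪φ, φ⟫_ℝ ∧
    ∃ m : ℤ, |ω * (r1 - r0) - (((d : ℝ) - 1) * (d - 3) / 4) * (1 / r0 - 1 / r1) / (2 * ω) -
      m * Real.pi| ≤ B / ω ^ 2

/-- SPS: the eigenvalues are simple. -/
def SpsStmt : Prop := ∀ (d : ℕ) (r0 r1 : ℝ) (h : r0 ≤ r1)
  (D SX : Lp ℝ 2 (nu d h) →L[ℝ] C(Ic r0 r1, ℝ)) (ω : ℝ) (φ u : Lp ℝ 2 (nu d h)), 1 ≤ d →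
  0 < r0 → r0 < r1 → Opr D SX → 0 < ω → φ ≠ 0 → φ =ᵐ[nu d h] (fun r => ω ^ 2 * SX φ r) →
  u =ᵐ[nu d h] (fun r => ω ^ 2 * SX u r) → ∃ c : ℝ, u = c • φ

/-- PWM: inequality of the power means. -/
def PwmStmt : Prop := ∀ (r0 r1 : ℝ) (μ : Measure (Ic r0 r1)) [IsFiniteMeasure μ] (p : ℕ)
  (x : C(Ic r0 r1, ℝ)), (∫ s, x s ^ 2 ∂μ) ^ (p + 1) ≤
    μ.real univ ^ p * ∫ s, x s ^ (2 * p + 2) ∂μ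

/-- SPF: the choice of the eigenfunction. -/
def SpfStmt : Prop := ∀ (d : ℕ) (r0 r1 : ℝ) (h : r0 ≤ r1)
  (A : Alg C(Ic r0 r1, ℝ) C(Ic r0 r1, ℝ) (Lp ℝ 2 (nu d h))) (W : Wv A)
  (D : Lp ℝ 2 (nu d h) →L[ℝ] C(Ic r0 r1, ℝ)) (p : ℕ), 2 ≤ d → d ≠ 3 → 0 < r0 → r0 < r1 →
  1 ≤ p → (∀ x, A.e x =ᵐ[nu d h] x) → Opr D W.SX → IsCompactOperator W.S →
  ∃ (K : ℕ) (ω : ℝ) (φ : Lp ℝ 2 (nu d h)), 1 ≤ K ∧ 0 < ω ∧ φ ≠ 0 ∧ (ω ^ 2) • W.S φ = φ ∧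
    0 < ⟪A.e (W.SX ((ω ^ 2) • φ) ^ (2 * p + 1)), φ⟫_ℝ ∧
    (2 * p + 1) * ‖W.SX ((ω ^ 2) • φ)‖ ^ (2 * p) <
      K * (p * cp p * (⟪A.e (W.SX ((ω ^ 2) • φ) ^ (2 * p + 1)), φ⟫_ℝ / ⟪φ, φ⟫_ℝ)) ∧
    Slv W.S ω φ (1 + 2 * p * K)

/-- RWF: the weak form of the equation in the shell. -/
def RwfStmt : Prop := ∀ (d : ℕ) (r0 r1 : ℝ) (h : r0 ≤ r1)
  (D SX : Lp ℝ 2 (nu d h) →L[ℝ] C(Ic r0 r1, ℝ)), 1 ≤ d → 0 < r0 → r0 < r1 → Opr D SX →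
  ∀ (k : Lp ℝ 2 (nu d h)) (ψ : En d → ℝ), Tst (shell d r0 r1) ψ →
  ∫ x, ⟪D k (pr h x) • (‖x‖⁻¹ • x), gradient ψ x⟫_ℝ ∂(mu (shell d r0 r1)) =
    ∫ x, k (pr h x) * ψ x ∂(mu (shell d r0 r1))

/-- RHT: radial functions in `H^1_0` of the shell. -/
def RhtStmt : Prop := ∀ (d : ℕ) (r0 r1 : ℝ) (h : r0 ≤ r1) (g : C(Ic r0 r1, ℝ)), 1 ≤ d → 0 < r0 →
  r0 < r1 → ∫ s in r0..r1, g (projIcc r0 r1 h s) = 0 →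
  ∀ (u : Lp ℝ 2 (mu (shell d r0 r1))) (G : Lp (En d) 2 (mu (shell d r0 r1))),
  (u =ᵐ[mu (shell d r0 r1)] fun x => ∫ s in r0..‖x‖, g (projIcc r0 r1 h s)) →
  (G =ᵐ[mu (shell d r0 r1)] fun x => g (pr h x) • (‖x‖⁻¹ • x)) → (u, G) ∈ H10 (shell d r0 r1)

/-- The abstract theorem, with the condition `(2p+1) ‖φ‖^(2p) < K p c_p γ` on the order
(proved in Helper70_BE01/Scl.lean). -/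
def SclStmt : Prop := ∀ (X Y H : Type) [NormedCommRing X] [NormedAlgebra ℝ X]
  [CompleteSpace X] [NormedAddCommGroup Y] [NormedSpace ℝ Y] [CompleteSpace Y]
  [NormedAddCommGroup H] [InnerProductSpace ℝ H] [CompleteSpace H] (A : Alg X Y H) (W : Wv A)
  (p : ℕ) (a0 ω : ℝ) (φ : H) (K : ℕ), 1 ≤ p → 0 < a0 → 0 < ω →
  φ ≠ 0 → (ω ^ 2) • W.S φ = φ → 0 < ⟪A.e (W.SX ((ω ^ 2) • φ) ^ (2 * p + 1)), φ⟫_ℝ → 1 ≤ K →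
  (2 * p + 1) * ‖W.SX ((ω ^ 2) • φ)‖ ^ (2 * p) <
    K * (p * cp p * (⟪A.e (W.SX ((ω ^ 2) • φ) ^ (2 * p + 1)), φ⟫_ℝ / ⟪φ, φ⟫_ℝ)) →
  Slv W.S ω φ (1 + 2 * p * K) →
  ∃ (t0 c C : ℝ) (u : ℝ → H) (x : ℝ → X) (k w h : ℝ → H), 1 ≤ t0 ∧ 0 < c ∧
    ContinuousOn w (Ioi t0) ∧ ContinuousOn h (Ioi t0) ∧
    ∀ t > t0, HasDerivAt u (A.e (x t)) t ∧ HasDerivAt (fun s => A.e (x s)) (w t) t ∧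
      x t = W.SX (k t) ∧ u t = W.S (h t) ∧ w t + h t + a0 • A.e (x t ^ (2 * p + 1)) = 0 ∧
      c * t ^ (- (1 / (p : ℝ))) ≤ ‖A.e (x t)‖ ^ 2 + ⟪h t, W.S (h t)⟫_ℝ ∧
      ‖A.e (x t)‖ ^ 2 + ⟪h t, W.S (h t)⟫_ℝ ≤ C * t ^ (- (1 / (p : ℝ)))

/-- SHF: the theorem for shells. -/
def ShfStmt : Prop := ∀ (d p : ℕ) (r0 r1 a : ℝ), 2 ≤ d → d ≠ 3 → 0 < r0 → r0 < r1 → 1 ≤ p →
  0 < a → ∃ (u v w : ℝ → Lp ℝ 2 (mu (shell d r0 r1)))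
    (G : ℝ → Lp (En d) 2 (mu (shell d r0 r1))),
    IsSol (shell d r0 r1) a ((2 * p : ℕ) : ℝ) u v w G ∧
    (∀ t, 0 ≤ t → ∃ f : ℝ → ℝ, u t =ᵐ[mu (shell d r0 r1)] fun x => f ‖x‖) ∧
    ∃ c C : ℝ, 0 < c ∧ ∀ t, 0 ≤ t →
      c * (1 + t) ^ (-(2 / ((2 * p : ℕ) : ℝ))) ≤ energy (shell d r0 r1) v G t ∧
      energy (shell d r0 r1) v G t ≤ C * (1 + t) ^ (-(2 / ((2 * p : ℕ) : ℝ)))

end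

end Pool.Agent.BE01
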